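import Pool.Agent.H12.KP.Targets4

/-!
# Project KEW, block (i), PRIM: a primitive element over a transcendence basis
-/

set_option autoImplicit false

namespace Pool.Agent.H11.KP

open Pool.Agent.H12.KP Polynomial nonZeroDivisors

universe u v

section

variable {B : Type u} {R : Type v} [CommRing B] [IsDomain B] [CommRing R] [IsDomain R]
  [Algebra B R] [FaithfulSMul B R] [Algebra.IsAlgebraic B R]

/-- denominators in `B` -/
theorem den (z : FractionRing R) : ∃ b : B, b ≠ 0 ∧ ∃ r : R,
    algebraMap B (FractionRing R) b * z = algebraMap R (FractionRing R) r := by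
  obtain ⟨⟨r, d⟩, h⟩ := IsLocalization.surj (Algebra.algebraMapSubmonoid R B⁰) z
  obtain ⟨b, hb, hd⟩ := d.2
  refine ⟨b, nonZeroDivisors.ne_zero hb, r, ?_⟩
  rw [IsScalarTower.algebraMap_apply B R (FractionRing R), hd, mul_comm]
  exact h

/-- the set of the elements `x` with `D ^ k x` a polynomial in `θ` -/
def Sg (θ : R) (D : B) : Subalgebra B R where
  carrier := {x | ∃ (k : ℕ) (G : B[X]), algebraMap B R D ^ k * x = aeval θ G}
  mul_mem' := by
    rintro x y ⟨k, G, h⟩ ⟨l, H, h'⟩
    refine ⟨k + l, G * H, ?_⟩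
    rw [map_mul, ← h, ← h', pow_add]
    ring
  add_mem' := by
    rintro x y ⟨k, G, h⟩ ⟨l, H, h'⟩
    refine ⟨k + l, C D ^ l * G + C D ^ k * H, ?_⟩
    rw [map_add, map_mul, map_mul, ← h, ← h', map_pow, map_pow, aeval_C, pow_add]
    ring
  algebraMap_mem' := by
    intro b
    exact ⟨0, C b, by rw [aeval_C, pow_zero, one_mul]⟩

/-- the set of the polynomials `G` with `D ^ k G` divisible by `F` -/
def Ig (F : B[X]) (D : B) : Ideal B[X] where
  carrier := {G | ∃ (k : ℕ) (H : B[X]), C D ^ k * G = F * H}
  add_mem' := by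
    rintro x y ⟨k, G, h⟩ ⟨l, H, h'⟩
    refine ⟨k + l, C D ^ l * G + C D ^ k * H, ?_⟩
    calc C D ^ (k + l) * (x + y) = C D ^ l * (C D ^ k * x) + C D ^ k * (C D ^ l * y) := by ring
      _ = F * (C D ^ l * G + C D ^ k * H) := by rw [h, h']; ring
  zero_mem' := ⟨0, 0, by simp⟩
  smul_mem' := by
    rintro c x ⟨k, G, h⟩
    refine ⟨k, c * G, ?_⟩
    rw [smul_eq_mul]
    calc C D ^ k * (c * x) = c * (C D ^ k * x) := by ring
      _ = F * (c * G) := by rw [h]; ring

end

theorem prim_aux {B : Type u} {R : Type v} [CommRing B] [IsDomain B] [CommRing R] [IsDomain R]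
    [Algebra B R] [FaithfulSMul B R] [Algebra.IsAlgebraic B R] [IsNoetherianRing B] [CharZero B]
    (s : Finset R) (hs : Algebra.adjoin B (s : Set R) = ⊤) :
    ∃ (θ : R) (F : B[X]) (D : B), D ≠ 0 ∧ aeval θ F = 0 ∧ aeval θ F.derivative ≠ 0 ∧
      (∀ x : R, ∃ (k : ℕ) (G : B[X]), algebraMap B R D ^ k * x = aeval θ G) ∧
      ∀ G : B[X], aeval θ G = 0 → ∃ (k : ℕ) (H : B[X]), C D ^ k * G = F * H := by
  classical
  let K := FractionRing B
  let E := FractionRing R
  let _ : Algebra K E := FractionRing.liftAlgebra B E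
  have hT : IsScalarTower B K E := FractionRing.isScalarTower_liftAlgebra B E
  have hBK : Function.Injective (algebraMap B K) := IsFractionRing.injective B K
  have hRE : Function.Injective (algebraMap R E) := IsFractionRing.injective R E
  have hBE : Function.Injective (algebraMap B E) := FaithfulSMul.algebraMap_injective B E
  have hBR : Function.Injective (algebraMap B R) := FaithfulSMul.algebraMap_injective B R
  have hCK : CharZero K := charZero_of_injective_algebraMap hBK
  have halg : Algebra.IsAlgebraic K E :=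
    IsFractionRing.comap_isAlgebraic_iff (A := B).1
      ((IsFractionRing.isAlgebraic_iff' B R E).1 inferInstance)
  -- finiteness
  have hft : Algebra.FiniteType K E := by
    have h0 : ∀ r ∈ Algebra.adjoin B (s : Set R), algebraMap R E r ∈
        Algebra.adjoin K ((s.image (algebraMap R E) : Finset E) : Set E) := by
      intro r h1
      induction h1 using Algebra.adjoin_induction with
      | mem x hx =>
        exact Algebra.subset_adjoin (by
          rw [Finset.coe_image]
          exact ⟨x, hx, rfl⟩)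
      | algebraMap b =>
        rw [← IsScalarTower.algebraMap_apply B R E, IsScalarTower.algebraMap_apply B K E]
        exact Subalgebra.algebraMap_mem _ _
      | add x y _ _ hx hy => rw [map_add]; exact Subalgebra.add_mem _ hx hy
      | mul x y _ _ hx hy => rw [map_mul]; exact Subalgebra.mul_mem _ hx hy
    refine ⟨⟨s.image (algebraMap R E), ?_⟩⟩
    rw [eq_top_iff]
    intro z _
    obtain ⟨b, hb, r, hr⟩ := den (B := B) z
    have hb' : algebraMap B K b ≠ 0 := by rwa [Ne, map_eq_zero_iff _ hBK]
    have h2 : z = algebraMap K E (algebraMap B K b)⁻¹ * algebraMap R E r := by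
      rw [← hr, IsScalarTower.algebraMap_apply B K E, ← mul_assoc, ← map_mul,
        inv_mul_cancel₀ hb', map_one, one_mul]
    rw [h2]
    exact Subalgebra.mul_mem _ (Subalgebra.algebraMap_mem _ _) (h0 r (by rw [hs]; trivial))
  have hfin : Module.Finite K E := Algebra.IsIntegral.finite
  -- primitive element
  obtain ⟨α, hα⟩ := Field.exists_primitive_element K E
  obtain ⟨b, hb, θ, hθ⟩ := den (B := B) α
  have hb' : algebraMap B K b ≠ 0 := by rwa [Ne, map_eq_zero_iff _ hBK]
  have hprim : ∀ z : E, ∃ g : K[X], aeval (algebraMap R E θ) g = z := by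
    intro z
    have h1 : z ∈ IntermediateField.adjoin K {α} := by rw [hα]; trivial
    have h2 : IsIntegral K α := Algebra.IsIntegral.isIntegral α
    rw [← IntermediateField.mem_toSubalgebra,
      IntermediateField.adjoin_simple_toSubalgebra_of_isAlgebraic h2.isAlgebraic,
      Algebra.adjoin_singleton_eq_range_aeval] at h1
    obtain ⟨g, hg⟩ := h1
    have h3 : α = aeval (algebraMap R E θ) (C (algebraMap B K b)⁻¹ * X) := by
      rw [map_mul, aeval_C, aeval_X, ← hθ, IsScalarTower.algebraMap_apply B K E, ← mul_assoc,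
        ← map_mul, inv_mul_cancel₀ hb', map_one, one_mul]
    refine ⟨g.comp (C (algebraMap B K b)⁻¹ * X), ?_⟩
    rw [aeval_comp, ← h3]
    exact hg
  -- clearing denominators
  have hev : ∀ G : B[X], aeval (algebraMap R E θ) (G.map (algebraMap B K)) =
      algebraMap R E (aeval θ G) := by
    intro G
    rw [aeval_map_algebraMap, aeval_algebraMap_apply]
  have hcl : ∀ g : K[X], ∃ (d : B) (G : B[X]), d ≠ 0 ∧
      G.map (algebraMap B K) = C (algebraMap B K d) * g := by
    intro g
    obtain ⟨d, hd, h⟩ := IsLocalization.integerNormalization_spec B⁰ g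
    refine ⟨d, _, nonZeroDivisors.ne_zero hd, h.trans ?_⟩
    rw [Algebra.smul_def]
    rfl
  set p : K[X] := minpoly K (algebraMap R E θ) with hp
  have hθi : IsIntegral K (algebraMap R E θ) := Algebra.IsIntegral.isIntegral _
  have hpi : Irreducible p := minpoly.irreducible hθi
  obtain ⟨c, F, hc, hF⟩ := hcl p
  have hc' : algebraMap B K c ≠ 0 := by rwa [Ne, map_eq_zero_iff _ hBK]
  have hF0 : aeval θ F = 0 := by
    apply hRE
    rw [← hev, hF, map_mul, minpoly.aeval, mul_zero, map_zero]
  have hF1 : aeval θ F.derivative ≠ 0 := by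
    intro h
    have h1 : aeval (algebraMap R E θ) (F.derivative.map (algebraMap B K)) = 0 := by
      rw [hev, h, map_zero]
    rw [← derivative_map, hF, derivative_C_mul, map_mul, aeval_C] at h1
    rcases mul_eq_zero.1 h1 with h2 | h2
    · exact hc' ((map_eq_zero_iff _ (algebraMap K E).injective).1 h2)
    · exact hpi.separable.aeval_derivative_ne_zero (minpoly.aeval _ _) h2
  -- generators
  have hx : ∀ x : R, ∃ (d : B) (G : B[X]), d ≠ 0 ∧ algebraMap B R d * x = aeval θ G := by
    intro x
    obtain ⟨g, hg⟩ := hprim (algebraMap R E x)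
    obtain ⟨d, G, hd, hG⟩ := hcl g
    refine ⟨d, G, hd, hRE ?_⟩
    rw [← hev, hG, map_mul (aeval _), hg, aeval_C, map_mul, ← IsScalarTower.algebraMap_apply B R E,
      ← IsScalarTower.algebraMap_apply B K E]
  choose dx Gx hdx hGx using hx
  -- the kernel
  have hker : ∀ G : B[X], ∃ (d : B) (H : B[X]), d ≠ 0 ∧ (aeval θ G = 0 → C d * G = F * H) := by
    intro G
    by_cases hG : aeval θ G = 0
    · have h1 : aeval (algebraMap R E θ) (G.map (algebraMap B K)) = 0 := by
        rw [hev, hG, map_zero]
      obtain ⟨h, hh⟩ := minpoly.dvd K _ h1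
      obtain ⟨d, H, hd, hH⟩ := hcl (C (algebraMap B K c)⁻¹ * h)
      refine ⟨d, H, hd, fun _ => ?_⟩
      apply map_injective (algebraMap B K) hBK
      rw [Polynomial.map_mul, Polynomial.map_mul, hF, hH, map_C, hh, ← hp]
      have h3 : C (algebraMap B K c) * C (algebraMap B K c)⁻¹ = (1 : K[X]) := by
        rw [← C_mul, mul_inv_cancel₀ hc', C_1]
      calc C (algebraMap B K d) * (p * h) = (C (algebraMap B K c) * C (algebraMap B K c)⁻¹) *
            (C (algebraMap B K d) * (p * h)) := by rw [h3, one_mul]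
        _ = C (algebraMap B K c) * p * (C (algebraMap B K d) *
            (C (algebraMap B K c)⁻¹ * h)) := by ring
    · exact ⟨1, 0, one_ne_zero, fun h => absurd h hG⟩
  choose dG HG hdG hHG using hker
  let P : Ideal B[X] := RingHom.ker (aeval θ : B[X] →ₐ[B] R)
  obtain ⟨t, ht⟩ := (isNoetherianRing_iff_ideal_fg B[X]).1 inferInstance P
  refine ⟨θ, F, (∏ x ∈ s, dx x) * ∏ G ∈ t, dG G, ?_, hF0, hF1, ?_, ?_⟩
  · exact mul_ne_zero (Finset.prod_ne_zero_iff.2 fun x _ => hdx x)
      (Finset.prod_ne_zero_iff.2 fun G _ => hdG G)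
  · intro x
    set D : B := (∏ x ∈ s, dx x) * ∏ G ∈ t, dG G with hD
    have h1 : Algebra.adjoin B (s : Set R) ≤ Sg θ D := by
      rw [Algebra.adjoin_le_iff]
      intro y hy
      refine ⟨1, C ((∏ x ∈ s.erase y, dx x) * ∏ G ∈ t, dG G) * Gx y, ?_⟩
      rw [map_mul (aeval θ), aeval_C, ← hGx y, pow_one, hD, ← Finset.mul_prod_erase s dx hy]
      simp only [map_mul]
      ring
    have h2 : x ∈ Sg θ D := h1 (by rw [hs]; trivial)
    exact h2
  · intro G hG
    set D : B := (∏ x ∈ s, dx x) * ∏ G ∈ t, dG G with hD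
    have h1 : P ≤ Ig F D := by
      rw [← ht, Ideal.span_le]
      intro G' hG'
      have h2 : aeval θ G' = 0 := by
        have : G' ∈ P := by rw [← ht]; exact Ideal.subset_span hG'
        exact this
      refine ⟨1, C ((∏ x ∈ s, dx x) * ∏ G ∈ t.erase G', dG G) * HG G', ?_⟩
      rw [pow_one, hD, ← Finset.mul_prod_erase t dG hG']
      simp only [C_mul]
      calc _ = C (∏ x ∈ s, dx x) * C (∏ G ∈ t.erase G', dG G) * (C (dG G') * G') := by ring
        _ = _ := by rw [hHG G' h2]; ring
    have h2 : G ∈ Ig F D := h1 hG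
    exact h2

theorem pf_PRIM : S_PRIM.{u,v} := by
  classical
  intro A R _ _ _ _ _ _ _ hinj hft
  have hfs : FaithfulSMul A R := (faithfulSMul_iff_algebraMap_injective A R).2 hinj
  obtain ⟨s, hs⟩ := hft.out
  have hal : Algebra.IsAlgebraic (Algebra.adjoin A (s : Set R)) R := by
    refine ⟨fun x => ?_⟩
    have hx : x ∈ Algebra.adjoin A (s : Set R) := by rw [hs]; trivial
    exact isAlgebraic_algebraMap (⟨x, hx⟩ : Algebra.adjoin A (s : Set R))
  obtain ⟨T, hTs, hT⟩ := exists_isTranscendenceBasis_subset (R := A) (s : Set R)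
  have hTf : T.Finite := s.finite_toSet.subset hTs
  have := hTf.fintype
  let e : Fin (Fintype.card T) ≃ T := (Fintype.equivFin T).symm
  let t : Fin (Fintype.card T) → R := fun i => (e i : R)
  have ht : IsTranscendenceBasis A t := hT.comp_equiv e
  let B := MvPolynomial (Fin (Fintype.card T)) A
  let φ : B →ₐ[A] R := MvPolynomial.aeval t
  have hφ : Function.Injective φ := ht.1
  let _ : Algebra B R := φ.toRingHom.toAlgebra
  have hBR : FaithfulSMul B R := (faithfulSMul_iff_algebraMap_injective B R).2 hφ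
  have hBA : Algebra.IsAlgebraic B R := by
    have h1 : Algebra.IsAlgebraic (Algebra.adjoin A (Set.range t)) R := ht.isAlgebraic
    let ψ : B →+* Algebra.adjoin A (Set.range t) :=
      φ.toRingHom.codRestrict (Algebra.adjoin A (Set.range t)).toSubring (by
        intro x
        have h2 : φ x ∈ (MvPolynomial.aeval t : B →ₐ[A] R).range := ⟨x, rfl⟩
        rw [← Algebra.adjoin_range_eq_range_aeval] at h2
        exact h2)
    refine Algebra.IsAlgebraic.of_ringHom_of_comp_eq (S := Algebra.adjoin A (Set.range t)) (B := R)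
      ψ (RingHom.id R) ?_ Function.injective_id ?_
    · rintro ⟨y, hy⟩
      rw [Algebra.adjoin_range_eq_range_aeval] at hy
      obtain ⟨x, hx⟩ := hy
      exact ⟨x, Subtype.ext hx⟩
    · ext x <;> rfl
  have hsB : Algebra.adjoin B (s : Set R) = ⊤ := by
    rw [eq_top_iff]
    intro x _
    have hx : x ∈ Algebra.adjoin A (s : Set R) := by rw [hs]; trivial
    induction hx using Algebra.adjoin_induction with
    | mem x hx => exact Algebra.subset_adjoin hx
    | algebraMap a =>
      have h1 : algebraMap A R a = algebraMap B R (MvPolynomial.C a) := (φ.commutes a).symm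
      rw [h1]
      exact Subalgebra.algebraMap_mem _ _
    | add x y _ _ hx hy => exact Subalgebra.add_mem _ (hx trivial) (hy trivial)
    | mul x y _ _ hx hy => exact Subalgebra.mul_mem _ (hx trivial) (hy trivial)
  obtain ⟨θ, F, D, h1, h2, h3, h4, h5⟩ := prim_aux (B := B) s hsB
  exact ⟨Fintype.card T, t, θ, F, D, ht.1, h1, h2, h3, h4, h5⟩

end Pool.Agent.H11.KP
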